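import Mathlib
import Pool.Agent.V117.MonIdeal
import Pool.Agent.V117.IntCl
import Pool.Agent.Results.MP_8dad47_al.HomologicalShift

namespace Pool.Agent.Results.MP_be6357_al.AssShift

open MvPolynomial Pool.Agent.V117 Pool.Agent.V117.MConv
open Pool.Agent.Results.MP_8dad47_al.HomologicalShift

section

variable {n : ℕ} {K : Type} [Field K]

/-- exponents of the monomials in the homological shift ideal -/
def Vk (G : Set (Fin n →₀ ℕ)) (k i : ℕ) : Set (Fin n →₀ ℕ) :=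
  {v | ∃ g, Good (Sm (BG G) k) g i ∧ ∀ l, g l ≤ cz v l}

lemma Vk_upper (G : Set (Fin n →₀ ℕ)) (k i : ℕ) : IsUpperSet (Vk G k i) := by
  rintro u v huv ⟨x, hx, h⟩
  refine ⟨x, hx, fun l => (h l).trans ?_⟩
  have := huv l
  unfold cz
  exact_mod_cast this

lemma good_cz {G : Set (Fin n →₀ ℕ)} {k i : ℕ} {g : Fin n → ℤ} (h : Good (Sm (BG G) k) g i) :
    ∃ u : Fin n →₀ ℕ, g = cz u := by
  obtain ⟨⟨F, -, hF⟩, -⟩ := h
  obtain ⟨w, hw⟩ := sm_cz hF
  refine ⟨w + sqf F, ?_⟩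
  ext l
  have h1 := congrFun hw l
  simp only [Pi.sub_apply, cz, Finsupp.add_apply, ind] at h1 ⊢
  rw [sqf_apply]
  split_ifs at h1 ⊢ <;> push_cast <;> omega

lemma HS_eq {G : Set (Fin n →₀ ℕ)} {d : ℕ} (hd : ∀ u ∈ G, ∑ l, u l = d)
    (hex : ∀ u ∈ G, ∀ v ∈ G, ∀ p, v p < u p →
      ∃ q, u q < v q ∧ u - Finsupp.single p 1 + Finsupp.single q 1 ∈ G) (k i : ℕ) :
    HS i ((Ideal.span ((fun u => monomial u (1 : K)) '' G)) ^ k) = upIdeal K (Vk G k i) := by
  apply le_antisymm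
  · unfold HS
    rw [Ideal.span_le]
    rintro _ ⟨a, ha, rfl⟩
    rw [tor_iff hd hex] at ha
    show _ ∈ upIdeal K (Vk G k i)
    rw [monomial_mem_upIdeal (Vk_upper G k i) one_ne_zero]
    exact ⟨_, ha, fun l => le_rfl⟩
  · unfold upIdeal
    rw [Ideal.span_le]
    rintro _ ⟨v, ⟨g, hg, hgv⟩, rfl⟩
    obtain ⟨u, rfl⟩ := good_cz hg
    have hle : u ≤ v := by
      intro l
      have := hgv l
      simp only [cz] at this
      omega
    have e : monomial v (1 : K) = monomial (v - u) 1 * monomial u 1 := by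
      rw [monomial_mul, one_mul, tsub_add_cancel_of_le hle]
    show monomial v (1 : K) ∈ _
    rw [e]
    refine Ideal.mul_mem_left _ _ (Ideal.subset_span ⟨u, ?_, rfl⟩)
    rw [tor_iff hd hex]; exact hg

lemma finite_G {G : Set (Fin n →₀ ℕ)} {d : ℕ} (hd : ∀ u ∈ G, ∑ l, u l = d) : G.Finite := by
  refine (Set.finite_Iic (Finsupp.equivFunOnFinite.symm (fun _ : Fin n => d))).subset ?_
  intro u hu
  rw [Set.mem_Iic]
  intro l
  rw [← hd u hu]
  exact Finset.single_le_sum (f := fun l => u l) (fun _ _ => Nat.zero_le _) (Finset.mem_univ l)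

/-- The colon property, combinatorial form. -/
lemma colon_comb [Nonempty (Fin n)] {G : Set (Fin n →₀ ℕ)} {d : ℕ} (hd : ∀ u ∈ G, ∑ l, u l = d)
    (hex : ∀ u ∈ G, ∀ v ∈ G, ∀ p, v p < u p →
      ∃ q, u q < v q ∧ u - Finsupp.single p 1 + Finsupp.single q 1 ∈ G) (hne : G.Nonempty)
    {k i : ℕ} (hik : i ≤ k) (v : Fin n →₀ ℕ) (h : ∀ u ∈ G, v + u ∈ Vk G (k + 1) i) :
    v ∈ Vk G k i := by
  have hB := BG_exc hex
  have hH : Exc {a | Good (Sm (BG G) k) a i} := by
    refine good_exc (s := k * d) (hB.sm k) (fun x hx => ?_) i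
    rw [sm_sum hd k x hx]
  have hfin : (BG G).Finite := by
    have e : BG G = cz '' G := by
      ext x
      constructor
      · rintro ⟨u, hu, rfl⟩; exact ⟨u, hu, rfl⟩
      · rintro ⟨u, hu, rfl⟩; exact ⟨u, hu, rfl⟩
    rw [e]
    exact (finite_G hd).image _
  have hBne : (BG G).Nonempty := by
    obtain ⟨u, hu⟩ := hne
    exact ⟨_, u, hu, rfl⟩
  obtain ⟨g, hg, hgl⟩ := colon_aux hH hfin hBne (cz v) (by
    rintro _ ⟨u, hu, rfl⟩
    obtain ⟨g', hg', hgl'⟩ := h u hu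
    obtain ⟨b, hb, hgb⟩ := good_remove hB hik hg'
    refine ⟨g' - b, hgb, b, hb, fun l => ?_⟩
    have := hgl' l
    simp only [cz, Finsupp.add_apply, Pi.sub_apply] at this ⊢
    push_cast at this
    omega)
  exact ⟨g, hg, hgl⟩

lemma colon_ideal [Nonempty (Fin n)] {G : Set (Fin n →₀ ℕ)} {d : ℕ} (hd : ∀ u ∈ G, ∑ l, u l = d)
    (hex : ∀ u ∈ G, ∀ v ∈ G, ∀ p, v p < u p →
      ∃ q, u q < v q ∧ u - Finsupp.single p 1 + Finsupp.single q 1 ∈ G) (hne : G.Nonempty)
    {k i : ℕ} (hik : i ≤ k) (f : MvPolynomial (Fin n) K)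
    (h : ∀ u ∈ G, f * monomial u 1 ∈ upIdeal K (Vk G (k + 1) i)) : f ∈ upIdeal K (Vk G k i) := by
  rw [mem_upIdeal (Vk_upper G k i)]
  intro m hm
  refine colon_comb hd hex hne hik m fun u hu => ?_
  have h1 := h u hu
  rw [mem_upIdeal (Vk_upper G (k + 1) i)] at h1
  apply h1
  rw [mem_support_iff] at hm ⊢
  rw [coeff_mul_monomial, mul_one]
  exact hm

lemma mem_ass {R : Type*} [CommRing R] [IsNoetherianRing R] (J P : Ideal R) :
    P ∈ associatedPrimes R (R ⧸ J) ↔ P.IsPrime ∧ ∃ f : R, ∀ r, r ∈ P ↔ r * f ∈ J := by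
  rw [AssociatedPrimes.mem_iff, isAssociatedPrime_iff]
  have key : ∀ f r : R, r • (Ideal.Quotient.mk J f) = 0 ↔ r * f ∈ J := by
    intro f r
    rw [← Ideal.Quotient.eq_zero_iff_mem, map_mul]
    rfl
  constructor
  · rintro ⟨h1, x, rfl⟩
    refine ⟨h1, ?_⟩
    obtain ⟨f, rfl⟩ := Ideal.Quotient.mk_surjective x
    refine ⟨f, fun r => ?_⟩
    rw [Submodule.mem_colon_singleton, Submodule.mem_bot, key]
  · rintro ⟨h1, f, hf⟩
    refine ⟨h1, Ideal.Quotient.mk J f, ?_⟩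
    ext r
    rw [Submodule.mem_colon_singleton, Submodule.mem_bot, key, hf]

end

/-- For every polymatroidal ideal `I` and all `k ≥ i > 0` every associated prime of `HS_i(I^k)` is an
associated prime of `HS_i(I^{k+1})`. -/
theorem result (K : Type) [Field K] (n : ℕ) (I : Ideal (MvPolynomial (Fin n) K))
    (hI : IsPolymatroidal I) (i k : ℕ) (hi : 0 < i) (hik : i ≤ k) :
    associatedPrimes (MvPolynomial (Fin n) K) (MvPolynomial (Fin n) K ⧸ HS i (I ^ k)) ⊆
      associatedPrimes (MvPolynomial (Fin n) K) (MvPolynomial (Fin n) K ⧸ HS i (I ^ (k + 1))) := by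
  classical
  intro P hP
  rcases Nat.eq_zero_or_pos n with hn | hn
  · subst hn
    obtain ⟨G, d, hd, hex, rfl⟩ := hI
    have h0 : ∀ k, HS i ((Ideal.span ((fun u => monomial u (1 : K)) '' G)) ^ k) = ⊥ := by
      intro k
      rw [HS_eq hd hex, eq_bot_iff]
      unfold upIdeal
      rw [Ideal.span_le]
      rintro _ ⟨v, ⟨g, ⟨⟨F, hF, -⟩, -⟩, -⟩, rfl⟩
      have : F = ∅ := by
        ext x; exact x.elim0
      rw [this, Finset.card_empty] at hF
      omega
    rw [h0] at hP ⊢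
    exact hP
  have : Nonempty (Fin n) := ⟨⟨0, hn⟩⟩
  by_cases hI0 : I = ⊥
  · subst hI0
    have h1 : (⊥ : Ideal (MvPolynomial (Fin n) K)) ^ k = ⊥ ^ (k + 1) := by
      rw [← Ideal.zero_eq_bot, zero_pow (by omega), zero_pow (by omega)]
    rw [← h1]; exact hP
  have hmul := MP_8dad47_al.HomologicalShift.result K n I hI i k hi hik
  obtain ⟨G, d, hd, hex, rfl⟩ := hI
  have hne : G.Nonempty := by
    rw [Set.nonempty_iff_ne_empty]
    rintro rfl
    apply hI0
    simp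
  rw [mem_ass] at hP ⊢
  obtain ⟨hprime, f, hf⟩ := hP
  have hfin := finite_G hd
  by_contra hcon
  -- for every `u` there is an element outside `P`
  have h1 : ∀ u ∈ G, ∃ r, r ∉ P ∧ r * (f * monomial u 1) ∈
      HS i ((Ideal.span ((fun u => monomial u (1 : K)) '' G)) ^ (k + 1)) := by
    intro u hu
    by_contra h2
    push Not at h2
    apply hcon
    refine ⟨hprime, f * monomial u 1, fun r => ⟨fun hr => ?_, fun hr => ?_⟩⟩
    · rw [hf] at hr
      rw [hmul]
      have : r * (f * monomial u 1) = monomial u 1 * (r * f) := by ring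
      rw [this]
      exact Ideal.mul_mem_mul (Ideal.subset_span ⟨u, hu, rfl⟩) hr
    · by_contra hrP
      exact h2 r hrP hr
  choose! r hrP hrJ using h1
  have h2 : ∏ u ∈ hfin.toFinset, r u ∉ P := by
    intro hmem
    obtain ⟨u, hu, hru⟩ := (hprime.prod_mem_iff).mp hmem
    exact hrP u (hfin.mem_toFinset.mp hu) hru
  apply h2
  rw [hf, HS_eq hd hex]
  apply colon_ideal hd hex hne hik
  intro u hu
  have h3 := hrJ u hu
  rw [HS_eq hd hex] at h3
  have h4 : (∏ u ∈ hfin.toFinset, r u) * f * monomial u 1 =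
      (∏ v ∈ hfin.toFinset.erase u, r v) * (r u * (f * monomial u 1)) := by
    rw [← Finset.mul_prod_erase _ _ (hfin.mem_toFinset.mpr hu)]
    ring
  rw [h4]
  exact Ideal.mul_mem_left _ _ h3

end Pool.Agent.Results.MP_be6357_al.AssShift
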